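import Mathlib

/-!
Normal Carleman operators: the rows and the columns of the kernel have the same norms.
-/

set_option autoImplicit false

open MeasureTheory Filter Topology
open scoped ENNReal ComplexConjugate

namespace Pool.Agent.Helper19K9.Carleman

variable {α : Type*} [MeasurableSpace α] {μ : Measure α}

/-- `ν` is a Carleman kernel of the bounded operator `N` on `L²(μ)`. -/
structure IsCarleman (μ : Measure α) (N : Lp ℂ 2 μ →L[ℂ] Lp ℂ 2 μ) (ν : α → α → ℂ) : Prop where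
  measurable : AEStronglyMeasurable (Function.uncurry ν) (μ.prod μ)
  sq : ∀ᵐ x ∂μ, ∫⁻ y, ‖ν x y‖ₑ ^ 2 ∂μ < ⊤
  eq : ∀ f : Lp ℂ 2 μ, ∀ᵐ x ∂μ, N f x = ∫ y, ν x y * f y ∂μ

/-- the norm of a row -/
noncomputable def row (μ : Measure α) (ν : α → α → ℂ) (x : α) : ℝ≥0∞ :=
  (∫⁻ y, ‖ν x y‖ₑ ^ 2 ∂μ) ^ (1 / 2 : ℝ)

lemma eLpNorm_two (f : α → ℂ) : eLpNorm f 2 μ = (∫⁻ y, ‖f y‖ₑ ^ 2 ∂μ) ^ (1 / 2 : ℝ) := by
  rw [eLpNorm_eq_lintegral_rpow_enorm_toReal (by norm_num) (by norm_num)]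
  simp

lemma cs {g h : α → ℂ} (hg : AEStronglyMeasurable g μ) (hh : AEStronglyMeasurable h μ) :
    ∫⁻ y, ‖g y * h y‖ₑ ∂μ ≤ eLpNorm g 2 μ * eLpNorm h 2 μ := by
  have h1 := ENNReal.lintegral_mul_le_Lp_mul_Lq μ Real.HolderConjugate.two_two
    (f := fun y => ‖g y‖ₑ) (g := fun y => ‖h y‖ₑ) hg.enorm hh.enorm
  rw [eLpNorm_two, eLpNorm_two]
  simp only [Pi.mul_apply, ENNReal.rpow_two] at h1
  simpa only [enorm_mul] using h1

lemma row_eq (ν : α → α → ℂ) (x : α) : row μ ν x = eLpNorm (ν x) 2 μ := (eLpNorm_two _).symm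

lemma row_lt {ν : α → α → ℂ} {x : α} (h : ∫⁻ y, ‖ν x y‖ₑ ^ 2 ∂μ < ⊤) : row μ ν x < ⊤ := by
  unfold row
  exact ENNReal.rpow_lt_top_of_nonneg (by norm_num) h.ne

variable [SigmaFinite μ]

lemma bound {N : Lp ℂ 2 μ →L[ℂ] Lp ℂ 2 μ} {ν : α → α → ℂ} (h : IsCarleman μ N ν) (f : Lp ℂ 2 μ) :
    ∀ᵐ x ∂μ, ‖N f x‖ₑ ≤ row μ ν x * ‖f‖ₑ := by
  have hm := h.measurable.prodMk_left
  filter_upwards [h.eq f, hm] with x hx hmx
  rw [hx]
  refine (enorm_integral_le_lintegral_enorm _).trans ?_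
  have h1 := cs (μ := μ) (g := ν x) (h := f) hmx (Lp.aestronglyMeasurable f)
  rw [row_eq]
  rwa [Lp.enorm_def]

lemma adjoint_approx {N : Lp ℂ 2 μ →L[ℂ] Lp ℂ 2 μ} (hN : IsStarNormal N) (f : Lp ℂ 2 μ) :
    ∃ (g : ℕ → Lp ℂ 2 μ) (c : ℝ≥0∞), c ≤ ‖f‖ₑ ∧ Tendsto (fun n => ‖g n‖ₑ) atTop (𝓝 c) ∧
      Tendsto (fun n => N (g n)) atTop (𝓝 (ContinuousLinearMap.adjoint N f)) := by
  set K : Submodule ℂ (Lp ℂ 2 μ) := (LinearMap.range (N : Lp ℂ 2 μ →ₗ[ℂ] Lp ℂ 2 μ)).topologicalClosure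
    with hK
  have hKc : IsClosed (K : Set (Lp ℂ 2 μ)) := Submodule.isClosed_topologicalClosure _
  have : CompleteSpace K := hKc.completeSpace_coe
  set f1 : Lp ℂ 2 μ := K.starProjection f with hf1
  have hf1K : f1 ∈ K := Submodule.starProjection_apply_mem K f
  have hle : ‖f1‖ ≤ ‖f‖ := Submodule.norm_starProjection_apply_le K f
  have horth : f - f1 ∈ Kᗮ := Submodule.sub_starProjection_mem_orthogonal f
  have heq : ContinuousLinearMap.adjoint N f = ContinuousLinearMap.adjoint N f1 := by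
    rw [← sub_eq_zero, ← map_sub]
    apply ext_inner_left ℂ
    intro v
    rw [ContinuousLinearMap.adjoint_inner_right, inner_zero_right]
    have hv : N v ∈ K := Submodule.le_topologicalClosure _ ⟨v, rfl⟩
    exact (Submodule.mem_orthogonal K _).1 horth _ hv
  have hcl : f1 ∈ closure (Set.range N) := by
    have : f1 ∈ (K : Set (Lp ℂ 2 μ)) := hf1K
    rw [hK, Submodule.topologicalClosure_coe, LinearMap.coe_range] at this
    exact this
  obtain ⟨x, hx, hlim⟩ := mem_closure_iff_seq_limit.1 hcl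
  choose u hu using hx
  have hnorm := (ContinuousLinearMap.isStarNormal_iff_norm_eq_adjoint (T := N)).1 hN
  have hcomm : ∀ v, ContinuousLinearMap.adjoint N (N v) = N (ContinuousLinearMap.adjoint N v) := by
    intro v
    have := hN.star_comm_self
    have h2 := congrArg (fun T : Lp ℂ 2 μ →L[ℂ] Lp ℂ 2 μ => T v) this.eq
    simpa [ContinuousLinearMap.star_eq_adjoint] using h2
  refine ⟨fun n => ContinuousLinearMap.adjoint N (u n), ‖f1‖ₑ, ?_, ?_, ?_⟩
  · rw [← ofReal_norm, ← ofReal_norm]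
    exact ENNReal.ofReal_le_ofReal hle
  · have h1 : (fun n => ‖ContinuousLinearMap.adjoint N (u n)‖ₑ) = fun n => ‖x n‖ₑ := by
      funext n
      rw [← ofReal_norm, ← ofReal_norm, ← hnorm, hu]
    rw [h1]
    exact (continuous_enorm.tendsto _).comp hlim
  · have h1 : (fun n => N (ContinuousLinearMap.adjoint N (u n))) =
        fun n => ContinuousLinearMap.adjoint N (x n) := by
      funext n
      rw [← hcomm, hu]
    rw [h1, heq]
    exact ((ContinuousLinearMap.adjoint N).continuous.tendsto _).comp hlim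

lemma adjoint_bound {N : Lp ℂ 2 μ →L[ℂ] Lp ℂ 2 μ} {ν : α → α → ℂ} (h : IsCarleman μ N ν)
    (hN : IsStarNormal N) (f : Lp ℂ 2 μ) :
    ∀ᵐ x ∂μ, ‖ContinuousLinearMap.adjoint N f x‖ₑ ≤ row μ ν x * ‖f‖ₑ := by
  obtain ⟨g, c, hc, hgc, hlim⟩ := adjoint_approx hN f
  obtain ⟨ns, hns, hae⟩ := (tendstoInMeasure_of_tendsto_Lp hlim).exists_seq_tendsto_ae
  have hb : ∀ᵐ x ∂μ, ∀ n, ‖N (g n) x‖ₑ ≤ row μ ν x * ‖g n‖ₑ := ae_all_iff.2 fun n => bound h (g n)
  filter_upwards [hae, hb, h.sq] with x hx hbx hsq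
  have h1 : Tendsto (fun n => ‖N (g (ns n)) x‖ₑ) atTop
      (𝓝 ‖ContinuousLinearMap.adjoint N f x‖ₑ) := (continuous_enorm.tendsto _).comp hx
  have h2 : Tendsto (fun n => row μ ν x * ‖g (ns n)‖ₑ) atTop (𝓝 (row μ ν x * c)) :=
    ENNReal.Tendsto.const_mul (hgc.comp hns.tendsto_atTop) (Or.inr (row_lt hsq).ne)
  have h3 := le_of_tendsto_of_tendsto' h1 h2 fun n => hbx (ns n)
  exact h3.trans (mul_le_mul_right hc _)

/-- the adjoint on the functions supported in a set on which the rows are bounded -/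
lemma adjoint_eq {N : Lp ℂ 2 μ →L[ℂ] Lp ℂ 2 μ} {ν : α → α → ℂ} (h : IsCarleman μ N ν)
    {A : Set α} (hA : MeasurableSet A) (hAf : μ A < ⊤) {M : ℝ≥0∞} (hM : M ≠ ⊤)
    (hb : ∀ᵐ x ∂μ, x ∈ A → row μ ν x ≤ M) (f F : Lp ℂ 2 μ) (hF : F =ᵐ[μ] A.indicator f) :
    ∀ᵐ y ∂μ, ContinuousLinearMap.adjoint N F y = ∫ x, conj (ν x y) * A.indicator f x ∂μ := by
  have hfm : AEStronglyMeasurable (A.indicator f) μ := (Lp.aestronglyMeasurable f).indicator hA
  -- integrability on the product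
  have key : ∀ B : Set α, MeasurableSet B → μ B < ⊤ →
      Integrable (Function.uncurry fun x y => conj (ν x y) * A.indicator f x)
        (μ.prod (μ.restrict B)) := by
    intro B hB hBf
    have hmeas : AEStronglyMeasurable (Function.uncurry fun x y => conj (ν x y) * A.indicator f x)
        (μ.prod (μ.restrict B)) := by
      have h1 : AEStronglyMeasurable (Function.uncurry ν) (μ.prod (μ.restrict B)) := by
        refine h.measurable.mono_ac ?_
        exact Measure.AbsolutelyContinuous.prod Measure.AbsolutelyContinuous.rfl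
          Measure.restrict_le_self.absolutelyContinuous
      have h2 : AEStronglyMeasurable (fun z : α × α => A.indicator f z.1)
          (μ.prod (μ.restrict B)) := hfm.comp_fst
      exact (Complex.continuous_conj.comp_aestronglyMeasurable h1).mul h2
    refine ⟨hmeas, ?_⟩
    rw [HasFiniteIntegral, lintegral_prod _ hmeas.enorm]
    have h3 : ∀ᵐ x ∂μ, ∫⁻ y in B, ‖conj (ν x y) * A.indicator f x‖ₑ ∂μ ≤
        (M * (μ B) ^ (1 / 2 : ℝ)) * ‖A.indicator f x‖ₑ := by
      filter_upwards [hb, h.measurable.prodMk_left] with x hx hxm'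
      have hxm : AEStronglyMeasurable (ν x) μ := hxm'
      by_cases hxA : x ∈ A
      · have h4 : ∫⁻ y in B, ‖conj (ν x y) * A.indicator f x‖ₑ ∂μ =
            (∫⁻ y in B, ‖ν x y‖ₑ ∂μ) * ‖A.indicator f x‖ₑ := by
          rw [← lintegral_mul_const'' _ (hxm.enorm.restrict)]
          refine lintegral_congr fun y => ?_
          rw [enorm_mul]
          congr 1
          exact RCLike.enorm_conj _
        rw [h4]
        refine mul_le_mul_left ?_ _
        have h5 := cs (μ := μ) (g := ν x) (h := B.indicator fun _ => (1 : ℂ)) hxm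
          (aestronglyMeasurable_const.indicator hB)
        have h6 : ∫⁻ y, ‖ν x y * B.indicator (fun _ => (1 : ℂ)) y‖ₑ ∂μ =
            ∫⁻ y in B, ‖ν x y‖ₑ ∂μ := by
          rw [← lintegral_indicator hB]
          refine lintegral_congr fun y => ?_
          by_cases hy : y ∈ B <;> simp [hy]
        have h7 : eLpNorm (B.indicator fun _ => (1 : ℂ)) 2 μ = (μ B) ^ (1 / 2 : ℝ) := by
          rw [eLpNorm_indicator_const hB (by norm_num) (by norm_num)]
          simp
        rw [h6, h7, ← row_eq] at h5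
        exact h5.trans (mul_le_mul_left (hx hxA) _)
      · simp [hxA]
    refine (lintegral_mono_ae h3).trans_lt ?_
    rw [lintegral_const_mul'' _ hfm.enorm]
    refine ENNReal.mul_lt_top (ENNReal.mul_lt_top hM.lt_top
      (ENNReal.rpow_lt_top_of_nonneg (by norm_num) hBf.ne)) ?_
    have h8 := cs (μ := μ) (g := f) (h := A.indicator fun _ => (1 : ℂ)) (Lp.aestronglyMeasurable f)
      (aestronglyMeasurable_const.indicator hA)
    have h9 : ∫⁻ y, ‖f y * A.indicator (fun _ => (1 : ℂ)) y‖ₑ ∂μ =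
        ∫⁻ y, ‖A.indicator f y‖ₑ ∂μ := by
      refine lintegral_congr fun y => ?_
      by_cases hy : y ∈ A <;> simp [hy]
    have h10 : eLpNorm (A.indicator fun _ => (1 : ℂ)) 2 μ = (μ A) ^ (1 / 2 : ℝ) := by
      rw [eLpNorm_indicator_const hA (by norm_num) (by norm_num)]
      simp
    rw [h9, h10] at h8
    refine h8.trans_lt (ENNReal.mul_lt_top (Lp.eLpNorm_lt_top f)
      (ENNReal.rpow_lt_top_of_nonneg (by norm_num) hAf.ne))
  refine ae_eq_of_forall_setIntegral_eq_of_sigmaFinite (μ := μ) ?_ ?_ ?_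
  · intro s _ hs
    have : IsFiniteMeasure (μ.restrict s) := ⟨by simpa using hs⟩
    exact ((Lp.memLp (ContinuousLinearMap.adjoint N F)).restrict s).integrable (by norm_num)
  · intro B hB hBf
    exact (key B hB hBf).integral_prod_right
  · intro B hB hBf
    have hind : B.indicator (fun _ => (1 : ℂ)) =ᵐ[μ]
        (indicatorConstLp 2 hB hBf.ne (1 : ℂ) : Lp ℂ 2 μ) := indicatorConstLp_coeFn.symm
    set b : Lp ℂ 2 μ := indicatorConstLp 2 hB hBf.ne (1 : ℂ) with hbdef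
    have e1 : ∫ y in B, ContinuousLinearMap.adjoint N F y ∂μ =
        inner ℂ b (ContinuousLinearMap.adjoint N F) := by
      rw [L2.inner_def, ← integral_indicator hB]
      refine integral_congr_ae ?_
      filter_upwards [hind] with y hy
      rw [← hy]
      by_cases hyB : y ∈ B <;> simp [hyB]
    rw [e1, ContinuousLinearMap.adjoint_inner_right, L2.inner_def]
    have e2 : ∫ x, inner ℂ (N b x) (F x) ∂μ =
        ∫ x, ∫ y in B, conj (ν x y) * A.indicator f x ∂μ ∂μ := by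
      refine integral_congr_ae ?_
      filter_upwards [h.eq b, hF] with x hx hFx
      rw [hx, hFx]
      have e3 : ∫ y, ν x y * b y ∂μ = ∫ y in B, ν x y ∂μ := by
        rw [← integral_indicator hB]
        refine integral_congr_ae ?_
        filter_upwards [hind] with y hy
        rw [← hy]
        by_cases hyB : y ∈ B <;> simp [hyB]
      rw [e3]
      simp only [RCLike.inner_apply]
      rw [← integral_conj, mul_comm, integral_mul_const]
    rw [e2]
    exact integral_integral_swap (key B hB hBf)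

/-- the part of a column over a set on which the rows are bounded -/
lemma column_part [MeasureTheory.IsSeparable μ] {N : Lp ℂ 2 μ →L[ℂ] Lp ℂ 2 μ} {ν : α → α → ℂ}
    (h : IsCarleman μ N ν) (hN : IsStarNormal N)
    {A : Set α} (hA : MeasurableSet A) (hAf : μ A < ⊤) {M : ℝ≥0∞} (hM : M ≠ ⊤)
    (hb : ∀ᵐ x ∂μ, x ∈ A → row μ ν x ≤ M) :
    ∀ᵐ y ∂μ, ∫⁻ x in A, ‖ν x y‖ₑ ^ 2 ∂μ ≤ (row μ ν y) ^ 2 := by
  have hp : Fact ((2 : ℝ≥0∞) ≠ ⊤) := ⟨by norm_num⟩
  -- a dense sequence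
  obtain ⟨D, hDc, hDd⟩ := TopologicalSpace.exists_countable_dense (Lp ℂ 2 μ)
  have hsw : AEStronglyMeasurable (fun z : α × α => ν z.2 z.1) (μ.prod μ) :=
    h.measurable.prod_swap
  -- the columns over `A` are square integrable
  have hcol : ∀ᵐ y ∂μ, ∫⁻ x in A, ‖ν x y‖ₑ ^ 2 ∂μ < ⊤ := by
    have hmeas : AEMeasurable (fun z : α × α => ‖ν z.2 z.1‖ₑ ^ 2) (μ.prod (μ.restrict A)) := by
      have h1 : AEStronglyMeasurable (fun z : α × α => ν z.2 z.1) (μ.prod (μ.restrict A)) := by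
        refine hsw.mono_ac ?_
        exact Measure.AbsolutelyContinuous.prod Measure.AbsolutelyContinuous.rfl
          Measure.restrict_le_self.absolutelyContinuous
      exact h1.enorm.pow_const 2
    refine ae_lt_top' (hmeas.lintegral_prod_right') ?_
    have e1 : ∫⁻ y, ∫⁻ x in A, ‖ν x y‖ₑ ^ 2 ∂μ ∂μ = ∫⁻ x in A, ∫⁻ y, ‖ν x y‖ₑ ^ 2 ∂μ ∂μ :=
      lintegral_lintegral_swap hmeas
    change ∫⁻ y, ∫⁻ x in A, ‖ν x y‖ₑ ^ 2 ∂μ ∂μ ≠ ⊤
    rw [e1]
    have e2 : ∫⁻ x in A, ∫⁻ y, ‖ν x y‖ₑ ^ 2 ∂μ ∂μ ≤ ∫⁻ x in A, M ^ 2 ∂μ := by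
      refine lintegral_mono_ae ?_
      rw [ae_restrict_iff' hA]
      filter_upwards [hb] with x hx hxA
      have := hx hxA
      have h3 : (row μ ν x) ^ 2 = ∫⁻ y, ‖ν x y‖ₑ ^ 2 ∂μ := by
        unfold row
        rw [← ENNReal.rpow_natCast, ← ENNReal.rpow_mul]
        norm_num
      rw [← h3]
      gcongr
    refine (e2.trans_lt ?_).ne
    rw [setLIntegral_const]
    exact ENNReal.mul_lt_top (ENNReal.pow_lt_top hM.lt_top) hAf
  have hDae : ∀ᵐ y ∂μ, ∀ f ∈ D, ‖∫ x, conj (ν x y) * A.indicator f x ∂μ‖ₑ ≤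
      row μ ν y * ‖f‖ₑ := by
    rw [ae_ball_iff hDc]
    intro f _
    have hmem : MemLp (A.indicator f) 2 μ := (Lp.memLp f).indicator hA
    have hF := hmem.coeFn_toLp
    filter_upwards [adjoint_eq h hA hAf hM hb f hmem.toLp hF, adjoint_bound h hN hmem.toLp]
      with y hy1 hy2
    rw [← hy1]
    refine hy2.trans (mul_le_mul_right ?_ _)
    rw [Lp.enorm_toLp, Lp.enorm_def]
    exact eLpNorm_indicator_le _
  filter_upwards [hcol, hDae, hsw.prodMk_left, h.sq] with y hy hyD hym' hsq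
  have hym : AEStronglyMeasurable (fun x => ν x y) μ := hym'
  have hmem : MemLp (A.indicator fun x => ν x y) 2 μ := by
    refine ⟨hym.indicator hA, ?_⟩
    rw [eLpNorm_indicator_eq_eLpNorm_restrict hA, eLpNorm_two]
    exact ENNReal.rpow_lt_top_of_nonneg (by norm_num) hy.ne
  set c : Lp ℂ 2 μ := hmem.toLp with hc
  have hcae := hmem.coeFn_toLp
  have hin : ∀ f : Lp ℂ 2 μ, inner ℂ c f = ∫ x, conj (ν x y) * A.indicator f x ∂μ := by
    intro f
    rw [L2.inner_def]
    refine integral_congr_ae ?_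
    filter_upwards [hcae] with x hx
    rw [hc, hx]
    simp only [RCLike.inner_apply]
    by_cases hxA : x ∈ A <;> simp [hxA, mul_comm]
  have hr : row μ ν y ≠ ⊤ := (row_lt hsq).ne
  have hall : ∀ f : Lp ℂ 2 μ, ‖inner ℂ c f‖ ≤ (row μ ν y).toReal * ‖f‖ := by
    intro f
    have hcl : IsClosed {f : Lp ℂ 2 μ | ‖inner ℂ c f‖ ≤ (row μ ν y).toReal * ‖f‖} :=
      isClosed_le (by fun_prop) (by fun_prop)
    have hsub : D ⊆ {f : Lp ℂ 2 μ | ‖inner ℂ c f‖ ≤ (row μ ν y).toReal * ‖f‖} := by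
      intro f hf
      have h1 := hyD f hf
      rw [← hin f] at h1
      have h2 := ENNReal.toReal_mono (ENNReal.mul_ne_top hr enorm_ne_top) h1
      simpa using h2
    have hu : closure D ⊆ {f : Lp ℂ 2 μ | ‖inner ℂ c f‖ ≤ (row μ ν y).toReal * ‖f‖} :=
      closure_minimal hsub hcl
    rw [hDd.closure_eq] at hu
    exact hu (Set.mem_univ f)
  have hcn : ‖c‖ ≤ (row μ ν y).toReal := by
    have h1 := hall c
    rw [inner_self_eq_norm_sq_to_K] at h1
    have h2 : ‖c‖ * ‖c‖ ≤ (row μ ν y).toReal * ‖c‖ := by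
      simpa [pow_two] using h1
    by_cases h0 : ‖c‖ = 0
    · rw [h0]; exact ENNReal.toReal_nonneg
    · exact le_of_mul_le_mul_right h2 (lt_of_le_of_ne (norm_nonneg _) (Ne.symm h0))
  have hce : ‖c‖ₑ ≤ row μ ν y := by
    rw [← ofReal_norm, ← ENNReal.ofReal_toReal hr]
    exact ENNReal.ofReal_le_ofReal hcn
  have hfin : ∫⁻ x in A, ‖ν x y‖ₑ ^ 2 ∂μ = ‖c‖ₑ ^ 2 := by
    rw [hc, Lp.enorm_toLp, eLpNorm_indicator_eq_eLpNorm_restrict hA, eLpNorm_two,
      ← ENNReal.rpow_natCast, ← ENNReal.rpow_mul]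
    norm_num
  rw [hfin]
  gcongr

lemma row_sq (ν : α → α → ℂ) (x : α) : (row μ ν x) ^ 2 = ∫⁻ y, ‖ν x y‖ₑ ^ 2 ∂μ := by
  unfold row
  rw [← ENNReal.rpow_natCast, ← ENNReal.rpow_mul]
  norm_num

/-- an exhaustion by sets on which the rows are bounded -/
lemma exhaustion {N : Lp ℂ 2 μ →L[ℂ] Lp ℂ 2 μ} {ν : α → α → ℂ} (h : IsCarleman μ N ν) :
    ∃ A : ℕ → Set α, (∀ n, MeasurableSet (A n)) ∧ (∀ n, μ (A n) < ⊤) ∧ Monotone A ∧
      (∀ n : ℕ, ∀ᵐ x ∂μ, x ∈ A n → row μ ν x ≤ n) ∧ ∀ᵐ x ∂μ, x ∈ ⋃ n, A n := by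
  have hm : AEMeasurable (fun x => ∫⁻ y, ‖ν x y‖ₑ ^ 2 ∂μ) μ :=
    (h.measurable.enorm.pow_const 2).lintegral_prod_right'
  have hr : AEMeasurable (row μ ν) μ := hm.pow_const _
  refine ⟨fun n => {x | hr.mk _ x ≤ n} ∩ spanningSets μ n, fun n => ?_, fun n => ?_, ?_, ?_, ?_⟩
  · exact (measurableSet_le hr.measurable_mk measurable_const).inter (measurableSet_spanningSets μ n)
  · exact (measure_mono Set.inter_subset_right).trans_lt (measure_spanningSets_lt_top μ n)
  · intro m n hmn x hx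
    refine ⟨?_, monotone_spanningSets μ hmn hx.2⟩
    have h1 : hr.mk _ x ≤ m := hx.1
    have h2 : (m : ℝ≥0∞) ≤ n := by exact_mod_cast hmn
    exact h1.trans h2
  · intro n
    filter_upwards [hr.ae_eq_mk] with x hx hxA
    rw [hx]
    exact hxA.1
  · filter_upwards [hr.ae_eq_mk, h.sq] with x hx hsq
    have h1 : hr.mk _ x < ⊤ := by
      rw [← hx]
      exact row_lt hsq
    obtain ⟨n, hn⟩ := ENNReal.exists_nat_gt h1.ne
    have h2 : x ∈ ⋃ i, spanningSets μ i := by rw [iUnion_spanningSets]; trivial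
    obtain ⟨m, hm⟩ := Set.mem_iUnion.1 h2
    refine Set.mem_iUnion.2 ⟨max n m, ?_, monotone_spanningSets μ (le_max_right _ _) hm⟩
    have h3 : (n : ℝ≥0∞) ≤ (max n m : ℕ) := by exact_mod_cast le_max_left n m
    exact hn.le.trans h3

/-- the columns are not longer than the rows -/
lemma column_le [MeasureTheory.IsSeparable μ] {N : Lp ℂ 2 μ →L[ℂ] Lp ℂ 2 μ} {ν : α → α → ℂ}
    (h : IsCarleman μ N ν) (hN : IsStarNormal N) :
    ∀ᵐ y ∂μ, ∫⁻ x, ‖ν x y‖ₑ ^ 2 ∂μ ≤ ∫⁻ x, ‖ν y x‖ₑ ^ 2 ∂μ := by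
  obtain ⟨A, hA, hAf, hmono, hb, hU⟩ := exhaustion h
  have h1 : ∀ᵐ y ∂μ, ∀ n, ∫⁻ x in A n, ‖ν x y‖ₑ ^ 2 ∂μ ≤ (row μ ν y) ^ 2 :=
    ae_all_iff.2 fun n => column_part h hN (hA n) (hAf n) (ENNReal.natCast_ne_top n) (hb n)
  filter_upwards [h1] with y hy
  rw [← row_sq]
  have h2 : ∫⁻ x, ‖ν x y‖ₑ ^ 2 ∂μ = ∫⁻ x in ⋃ n, A n, ‖ν x y‖ₑ ^ 2 ∂μ := by
    have h3 : (⋃ n, A n : Set α) =ᵐ[μ] Set.univ := by
      rw [eventuallyEq_univ]
      exact hU
    rw [setLIntegral_congr h3, setLIntegral_univ]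
  rw [h2, setLIntegral_iUnion_of_directed _ hmono.directed_le]
  exact iSup_le hy

/-- the transposed conjugate kernel is a kernel of the adjoint -/
lemma adjoint_isCarleman [MeasureTheory.IsSeparable μ] {N : Lp ℂ 2 μ →L[ℂ] Lp ℂ 2 μ}
    {ν : α → α → ℂ} (h : IsCarleman μ N ν) (hN : IsStarNormal N) :
    IsCarleman μ (ContinuousLinearMap.adjoint N) (fun y x => conj (ν x y)) := by
  have hsw : AEStronglyMeasurable (fun z : α × α => ν z.2 z.1) (μ.prod μ) :=
    h.measurable.prod_swap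
  have hen : ∀ z : ℂ, ‖conj z‖ₑ = ‖z‖ₑ := fun z => RCLike.enorm_conj _
  refine ⟨Complex.continuous_conj.comp_aestronglyMeasurable hsw, ?_, ?_⟩
  · filter_upwards [column_le h hN, h.sq] with y hy hsq
    simp only [hen]
    exact hy.trans_lt hsq
  · intro f
    obtain ⟨A, hA, hAf, hmono, hb, hU⟩ := exhaustion h
    have hmem : ∀ n, MemLp ((A n).indicator f) 2 μ := fun n => (Lp.memLp f).indicator (hA n)
    set F : ℕ → Lp ℂ 2 μ := fun n => (hmem n).toLp with hFdef
    have hF : ∀ n, F n =ᵐ[μ] (A n).indicator f := fun n => (hmem n).coeFn_toLp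
    -- the approximation
    have hdiff : ∀ n, (f - F n : Lp ℂ 2 μ) =ᵐ[μ] (A n)ᶜ.indicator f := by
      intro n
      filter_upwards [Lp.coeFn_sub f (F n), hF n] with x h1 h2
      rw [h1, Pi.sub_apply, h2]
      by_cases hx : x ∈ A n <;> simp [hx]
    have hlim : Tendsto (fun n => ‖f - F n‖ₑ) atTop (𝓝 0) := by
      have h1 : ∀ n, ‖f - F n‖ₑ = (∫⁻ x, ‖(A n)ᶜ.indicator f x‖ₑ ^ 2 ∂μ) ^ (1 / 2 : ℝ) := by
        intro n
        rw [Lp.enorm_def, eLpNorm_congr_ae (hdiff n), eLpNorm_two]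
      have h2 : Tendsto (fun n => ∫⁻ x, ‖(A n)ᶜ.indicator f x‖ₑ ^ 2 ∂μ) atTop
          (𝓝 (∫⁻ _, 0 ∂μ)) := by
        refine tendsto_lintegral_of_dominated_convergence' (fun x => ‖f x‖ₑ ^ 2) ?_ ?_ ?_ ?_
        · intro n
          exact ((Lp.aestronglyMeasurable f).indicator (hA n).compl).enorm.pow_const 2
        · intro n
          refine Eventually.of_forall fun x => ?_
          by_cases hx : x ∈ A n <;> simp [hx]
        · have h3 : eLpNorm f 2 μ ^ 2 = ∫⁻ x, ‖f x‖ₑ ^ 2 ∂μ := by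
            rw [eLpNorm_two, ← ENNReal.rpow_natCast, ← ENNReal.rpow_mul]
            norm_num
          rw [← h3]
          exact (ENNReal.pow_lt_top (Lp.eLpNorm_lt_top f)).ne
        · filter_upwards [hU] with x hx
          obtain ⟨m, hm⟩ := Set.mem_iUnion.1 hx
          refine tendsto_const_nhds.congr' ?_
          filter_upwards [eventually_ge_atTop m] with n hn
          have : x ∈ A n := hmono hn hm
          simp [this]
      rw [lintegral_zero] at h2
      simp only [h1]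
      have h4 := (ENNReal.continuous_rpow_const (y := (1 / 2 : ℝ))).tendsto 0
      rw [ENNReal.zero_rpow_of_pos (by norm_num)] at h4
      exact h4.comp h2
    have hb1 : ∀ᵐ y ∂μ, ∀ n, ContinuousLinearMap.adjoint N (F n) y =
        ∫ x, conj (ν x y) * (A n).indicator f x ∂μ :=
      ae_all_iff.2 fun n => adjoint_eq h (hA n) (hAf n) (ENNReal.natCast_ne_top n) (hb n) f (F n)
        (hF n)
    have hb2 : ∀ᵐ y ∂μ, ∀ n, ‖ContinuousLinearMap.adjoint N (f - F n) y‖ₑ ≤
        row μ ν y * ‖f - F n‖ₑ := ae_all_iff.2 fun n => adjoint_bound h hN (f - F n)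
    have hb3 : ∀ᵐ y ∂μ, ∀ n, ContinuousLinearMap.adjoint N (f - F n) y =
        ContinuousLinearMap.adjoint N f y - ContinuousLinearMap.adjoint N (F n) y := by
      refine ae_all_iff.2 fun n => ?_
      rw [map_sub]
      exact Lp.coeFn_sub _ _
    have hb4 : ∀ᵐ x ∂μ, ∀ n, (f - F n : Lp ℂ 2 μ) x = f x - (A n).indicator f x := by
      refine ae_all_iff.2 fun n => ?_
      filter_upwards [hdiff n] with x hx
      rw [hx]
      by_cases hxA : x ∈ A n <;> simp [hxA]
    filter_upwards [hb1, hb2, hb3, column_le h hN, h.sq, hsw.prodMk_left] with y h1 h2 h3 h4 h5 h6'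
    have h6 : AEStronglyMeasurable (fun x => conj (ν x y)) μ :=
      Complex.continuous_conj.comp_aestronglyMeasurable h6'
    have hcl : eLpNorm (fun x => conj (ν x y)) 2 μ < ⊤ := by
      rw [eLpNorm_two]
      simp only [hen]
      exact ENNReal.rpow_lt_top_of_nonneg (by norm_num) (h4.trans_lt h5).ne
    have hint : ∀ g : Lp ℂ 2 μ, Integrable (fun x => conj (ν x y) * g x) μ := by
      intro g
      refine ⟨h6.mul (Lp.aestronglyMeasurable g), ?_⟩
      exact (cs h6 (Lp.aestronglyMeasurable g)).trans_lt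
        (ENNReal.mul_lt_top hcl (Lp.eLpNorm_lt_top g))
    -- both sides are limits
    have t1 : Tendsto (fun n => ContinuousLinearMap.adjoint N (F n) y) atTop
        (𝓝 (ContinuousLinearMap.adjoint N f y)) := by
      rw [tendsto_iff_edist_tendsto_0]
      have h7 : ∀ n, edist (ContinuousLinearMap.adjoint N (F n) y)
          (ContinuousLinearMap.adjoint N f y) ≤ row μ ν y * ‖f - F n‖ₑ := by
        intro n
        rw [edist_comm, edist_eq_enorm_sub, ← h3 n]
        exact h2 n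
      refine tendsto_of_tendsto_of_tendsto_of_le_of_le tendsto_const_nhds ?_ (fun n => zero_le)
        h7
      have := ENNReal.Tendsto.const_mul hlim (Or.inr (row_lt h5).ne) (a := row μ ν y)
      simpa using this
    have t2 : Tendsto (fun n => ContinuousLinearMap.adjoint N (F n) y) atTop
        (𝓝 (∫ x, conj (ν x y) * f x ∂μ)) := by
      rw [tendsto_iff_edist_tendsto_0]
      have h7 : ∀ n, edist (ContinuousLinearMap.adjoint N (F n) y)
          (∫ x, conj (ν x y) * f x ∂μ) ≤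
            eLpNorm (fun x => conj (ν x y)) 2 μ * ‖f - F n‖ₑ := by
        intro n
        have h8 : ContinuousLinearMap.adjoint N (F n) y = ∫ x, conj (ν x y) * F n x ∂μ := by
          rw [h1 n]
          refine integral_congr_ae ?_
          filter_upwards [hF n] with x hx
          rw [hx]
        rw [edist_comm, edist_eq_enorm_sub, h8, ← integral_sub (hint f) (hint (F n))]
        refine (enorm_integral_le_lintegral_enorm _).trans ?_
        have h9 := cs h6 (Lp.aestronglyMeasurable (f - F n))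
        rw [← Lp.enorm_def] at h9
        refine le_trans (le_of_eq ?_) h9
        refine lintegral_congr_ae ?_
        filter_upwards [Lp.coeFn_sub f (F n)] with x hx
        rw [hx, Pi.sub_apply, mul_sub]
      refine tendsto_of_tendsto_of_tendsto_of_le_of_le tendsto_const_nhds ?_ (fun n => zero_le)
        h7
      have := ENNReal.Tendsto.const_mul hlim (Or.inr hcl.ne)
        (a := eLpNorm (fun x => conj (ν x y)) 2 μ)
      simpa using this
    exact tendsto_nhds_unique t1 t2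

/-- the rows and the columns have the same norms -/
lemma column_eq [MeasureTheory.IsSeparable μ] {N : Lp ℂ 2 μ →L[ℂ] Lp ℂ 2 μ} {ν : α → α → ℂ}
    (h : IsCarleman μ N ν) (hN : IsStarNormal N) :
    ∀ᵐ y ∂μ, ∫⁻ x, ‖ν x y‖ₑ ^ 2 ∂μ = ∫⁻ x, ‖ν y x‖ₑ ^ 2 ∂μ := by
  have hen : ∀ z : ℂ, ‖conj z‖ₑ = ‖z‖ₑ := fun z => RCLike.enorm_conj _
  have hN' : IsStarNormal (ContinuousLinearMap.adjoint N) := by
    rw [← ContinuousLinearMap.star_eq_adjoint]
    exact hN.star
  have h1 := column_le (adjoint_isCarleman h hN) hN'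
  filter_upwards [h1, column_le h hN] with y h2 h3
  simp only [hen] at h2
  exact le_antisymm h3 h2

end Pool.Agent.Helper19K9.Carleman
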