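import Mathlib

/-!
General position sets in the integer grid: geodesics and monotone chains.
-/

set_option autoImplicit false

namespace Pool.Agent.Helper19K9.GridGP

open Finset

/-- The `n`-dimensional infinite grid: two points of `ℤ ^ n` are adjacent when they differ by one in
exactly one coordinate. -/
def grid (n : ℕ) : SimpleGraph (Fin n → ℤ) where
  Adj x y := ∃ i, |x i - y i| = 1 ∧ ∀ j, j ≠ i → x j = y j
  symm := ⟨by
    rintro x y ⟨i, hi, h⟩
    exact ⟨i, by rw [abs_sub_comm]; exact hi, fun j hj => (h j hj).symm⟩⟩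
  loopless := ⟨by
    rintro x ⟨i, hi, -⟩
    simp at hi⟩

variable {n : ℕ}

/-- the `ℓ₁` distance -/
def l1 (x y : Fin n → ℤ) : ℕ := ∑ i, (x i - y i).natAbs

lemma l1_triangle (x y z : Fin n → ℤ) : l1 x z ≤ l1 x y + l1 y z := by
  unfold l1
  rw [← Finset.sum_add_distrib]
  refine Finset.sum_le_sum fun i _ => ?_
  omega

lemma l1_adj {x y : Fin n → ℤ} (h : (grid n).Adj x y) : l1 x y = 1 := by
  obtain ⟨i, hi, h⟩ := h
  unfold l1
  rw [Finset.sum_eq_single i]
  · rw [Int.abs_eq_natAbs] at hi
    exact_mod_cast hi
  · intro j _ hj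
    rw [h j hj]
    simp
  · simp

lemma l1_le_length {x y : Fin n → ℤ} (p : (grid n).Walk x y) : l1 x y ≤ p.length := by
  induction p with
  | nil => simp [l1]
  | cons h p ih =>
    rename_i u v w
    have := l1_triangle u v w
    rw [l1_adj h] at this
    rw [SimpleGraph.Walk.length_cons]
    omega

lemma exists_walk (d : ℕ) : ∀ x y : Fin n → ℤ, l1 x y = d → ∃ p : (grid n).Walk x y, p.length = d := by
  induction d with
  | zero =>
    intro x y h
    have hxy : x = y := by
      unfold l1 at h
      rw [Finset.sum_eq_zero_iff] at h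
      funext i
      have := h i (Finset.mem_univ i)
      omega
    subst hxy
    exact ⟨.nil, rfl⟩
  | succ d ih =>
    intro x y h
    have hne : ∃ i, x i ≠ y i := by
      by_contra hc
      push Not at hc
      have : l1 x y = 0 := by
        unfold l1
        exact Finset.sum_eq_zero fun i _ => by rw [hc i]; simp
      omega
    obtain ⟨i, hi⟩ := hne
    set e : ℤ := if x i < y i then 1 else -1 with he
    have hadj : (grid n).Adj x (Function.update x i (x i + e)) := by
      refine ⟨i, ?_, fun j hj => ?_⟩
      · rw [Function.update_self]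
        have : x i - (x i + e) = -e := by ring
        rw [this, abs_neg, he]
        split_ifs <;> simp
      · rw [Function.update_of_ne hj]
    have hl : l1 (Function.update x i (x i + e)) y = d := by
      have h1 : l1 x y = l1 (Function.update x i (x i + e)) y + 1 := by
        unfold l1
        rw [← Finset.add_sum_erase _ _ (Finset.mem_univ i),
          ← Finset.add_sum_erase univ (fun j => (Function.update x i (x i + e) j - y j).natAbs)
            (Finset.mem_univ i)]
        have h2 : ∑ j ∈ univ.erase i, (x j - y j).natAbs =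
            ∑ j ∈ univ.erase i, (Function.update x i (x i + e) j - y j).natAbs := by
          refine Finset.sum_congr rfl fun j hj => ?_
          rw [Function.update_of_ne (Finset.ne_of_mem_erase hj)]
        rw [h2, Function.update_self]
        have h3 : (x i - y i).natAbs = (x i + e - y i).natAbs + 1 := by
          rw [he]
          split_ifs with hlt <;> omega
        omega
      omega
    obtain ⟨p, hp⟩ := ih _ _ hl
    exact ⟨.cons hadj p, by rw [SimpleGraph.Walk.length_cons, hp]⟩

lemma dist_eq (x y : Fin n → ℤ) : (grid n).dist x y = l1 x y := by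
  obtain ⟨p, hp⟩ := exists_walk _ x y rfl
  apply le_antisymm
  · rw [← hp]
    exact SimpleGraph.dist_le p
  · obtain ⟨q, hq⟩ := (SimpleGraph.Walk.reachable p).exists_walk_length_eq_dist
    rw [← hq]
    exact l1_le_length q

/-- the order given by a pattern of signs -/
def leS (s : Fin n → Bool) (x y : Fin n → ℤ) : Prop := ∀ c, if s c then x c ≤ y c else y c ≤ x c

/-- a set any two elements of which are comparable for the pattern -/
def Ch (s : Fin n → Bool) (T : Finset (Fin n → ℤ)) : Prop := ∀ x ∈ T, ∀ y ∈ T, leS s x y ∨ leS s y x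

/-- the height function of a pattern -/
def ht (s : Fin n → Bool) (x : Fin n → ℤ) : ℤ := ∑ c, if s c then x c else - x c

lemma ht_mono {s : Fin n → Bool} {x y : Fin n → ℤ} (h : leS s x y) : ht s x ≤ ht s y := by
  refine Finset.sum_le_sum fun c _ => ?_
  have := h c
  split_ifs at this ⊢ <;> omega

lemma ht_eq {s : Fin n → Bool} {x y : Fin n → ℤ} (h : leS s x y) (he : ht s y ≤ ht s x) : x = y := by
  have h1 : ∀ c ∈ (univ : Finset (Fin n)), (if s c then x c else - x c) ≤ (if s c then y c else - y c) := by
    intro c _
    have := h c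
    split_ifs at this ⊢ <;> omega
  have h2 := (Finset.sum_eq_sum_iff_of_le h1).1 (le_antisymm (ht_mono h) he)
  funext c
  have := h2 c (Finset.mem_univ c)
  split_ifs at this <;> omega

lemma leS_trans {s : Fin n → Bool} {x y z : Fin n → ℤ} (h : leS s x y) (h' : leS s y z) : leS s x z := by
  intro c
  have h1 := h c
  have h2 := h' c
  split_ifs at * <;> omega

lemma leS_refl (s : Fin n → Bool) (x : Fin n → ℤ) : leS s x x := by
  intro c
  split_ifs <;> exact le_rfl

lemma l1_add {s : Fin n → Bool} {x y z : Fin n → ℤ} (h : leS s x y) (h' : leS s y z) :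
    l1 x y + l1 y z = l1 x z := by
  unfold l1
  rw [← Finset.sum_add_distrib]
  refine Finset.sum_congr rfl fun c _ => ?_
  have h1 := h c
  have h2 := h' c
  split_ifs at * <;> omega

/-- A chain lies on a geodesic. -/
lemma chain_walk (s : Fin n → Bool) (m : ℕ) : ∀ T : Finset (Fin n → ℤ), T.card = m + 1 → Ch s T →
    ∃ u v, v ∈ T ∧ (∀ x ∈ T, leS s u x ∧ leS s x v) ∧
      ∃ p : (grid n).Walk u v, p.length = l1 u v ∧ ∀ x ∈ T, x ∈ p.support := by
  induction m with
  | zero =>
    intro T hT _
    obtain ⟨a, ha⟩ := Finset.card_eq_one.1 hT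
    subst ha
    refine ⟨a, a, by simp, ?_, .nil, by simp [l1], by simp⟩
    intro x hx
    rw [Finset.mem_singleton] at hx
    subst hx
    exact ⟨leS_refl _ _, leS_refl _ _⟩
  | succ m ih =>
    intro T hT hch
    have hne : T.Nonempty := by
      rw [← Finset.card_pos]; omega
    obtain ⟨v, hv, hmax⟩ := Finset.exists_max_image T (ht s) hne
    have hcard : (T.erase v).card = m + 1 := by
      rw [Finset.card_erase_of_mem hv]; omega
    obtain ⟨u, v', hv', hb, p, hp, hsup⟩ := ih (T.erase v) hcard
      (fun x hx y hy => hch x (Finset.mem_of_mem_erase hx) y (Finset.mem_of_mem_erase hy))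
    have hle : ∀ x ∈ T, leS s x v := by
      intro x hx
      rcases hch x hx v hv with h | h
      · exact h
      · have := ht_eq h (hmax x hx)
        rw [this]
        exact leS_refl _ _
    have huv' : leS s u v' := (hb v' hv').1
    have hv'v : leS s v' v := hle v' (Finset.mem_of_mem_erase hv')
    obtain ⟨q, hq⟩ := exists_walk _ v' v rfl
    refine ⟨u, v, hv, ?_, p.append q, ?_, ?_⟩
    · intro x hx
      refine ⟨?_, hle x hx⟩
      by_cases hxv : x = v
      · subst hxv
        exact leS_trans huv' hv'v
      · exact (hb x (Finset.mem_erase.2 ⟨hxv, hx⟩)).1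
    · rw [SimpleGraph.Walk.length_append, hp, hq]
      exact l1_add huv' hv'v
    · intro x hx
      rw [SimpleGraph.Walk.mem_support_append_iff]
      by_cases hxv : x = v
      · right
        subst hxv
        exact SimpleGraph.Walk.end_mem_support q
      · left
        exact hsup x (Finset.mem_erase.2 ⟨hxv, hx⟩)

lemma l1_getVert {u v : Fin n → ℤ} (p : (grid n).Walk u v) (i j : ℕ) (hij : i ≤ j)
    (hj : j ≤ p.length) : l1 (p.getVert i) (p.getVert j) ≤ j - i := by
  induction j, hij using Nat.le_induction with
  | base => simp [l1]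
  | succ j hij ih =>
    have h1 := ih (by omega)
    have h2 := l1_adj (p.adj_getVert_succ (i := j) (by omega))
    have h3 := l1_triangle (p.getVert i) (p.getVert j) (p.getVert (j + 1))
    omega

/-- The vertices of a geodesic form a chain. -/
lemma walk_chain {u v : Fin n → ℤ} (p : (grid n).Walk u v) (hp : p.length = (grid n).dist u v)
    (T : Finset (Fin n → ℤ)) (hT : ∀ x ∈ T, x ∈ p.support) : ∃ s : Fin n → Bool, Ch s T := by
  rw [dist_eq] at hp
  have key : ∀ i j : ℕ, i ≤ j → j ≤ p.length →
      leS (fun c => decide (u c ≤ v c)) (p.getVert i) (p.getVert j) := by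
    intro i j hij hj
    have h0 := l1_getVert p 0 i (by omega) (by omega)
    have h1 := l1_getVert p i j hij hj
    have h2 := l1_getVert p j p.length hj le_rfl
    rw [SimpleGraph.Walk.getVert_zero] at h0
    rw [SimpleGraph.Walk.getVert_length] at h2
    set x := p.getVert i
    set y := p.getVert j
    have hsum : ∑ c, ((u c - x c).natAbs + (x c - y c).natAbs + (y c - v c).natAbs) =
        ∑ c, (u c - v c).natAbs := by
      apply le_antisymm
      · rw [Finset.sum_add_distrib, Finset.sum_add_distrib]
        change l1 u x + l1 x y + l1 y v ≤ l1 u v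
        omega
      · refine Finset.sum_le_sum fun c _ => ?_
        omega
    have h4 := (Finset.sum_eq_sum_iff_of_le (s := (univ : Finset (Fin n)))
      (f := fun c => (u c - v c).natAbs)
      (g := fun c => (u c - x c).natAbs + (x c - y c).natAbs + (y c - v c).natAbs)
      (fun c _ => by omega)).1 hsum.symm
    intro c
    have h5 := h4 c (Finset.mem_univ c)
    by_cases huv : u c ≤ v c
    · simp only [huv, decide_true, if_true]
      omega
    · simp only [huv, decide_false, Bool.false_eq_true, if_false]
      omega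
  refine ⟨fun c => decide (u c ≤ v c), fun x hx y hy => ?_⟩
  obtain ⟨i, rfl, hi⟩ := SimpleGraph.Walk.mem_support_iff_exists_getVert.1 (hT x hx)
  obtain ⟨j, rfl, hj⟩ := SimpleGraph.Walk.mem_support_iff_exists_getVert.1 (hT y hy)
  rcases le_total i j with h | h
  · exact Or.inl (key i j h hj)
  · exact Or.inr (key j i h hi)

/-- the pattern with the positive first sign -/
def pat {m : ℕ} (s : Fin m → Bool) : Fin (m + 1) → Bool := Fin.cons true s

/-- the length of the longest chain in `S` with greatest element `x` -/
noncomputable def hgt (S : Finset (Fin n → ℤ)) (s : Fin n → Bool) (x : Fin n → ℤ) : ℕ := by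
  classical
  exact (S.powerset.filter fun T => Ch s T ∧ x ∈ T ∧ ∀ y ∈ T, leS s y x).sup Finset.card

lemma hgt_le {S : Finset (Fin n → ℤ)} {s : Fin n → Bool} {x : Fin n → ℤ} {k : ℕ} (hk : 1 ≤ k)
    (hS : ∀ T ⊆ S, Ch s T → T.card ≠ k) : hgt S s x ≤ k - 1 := by
  classical
  unfold hgt
  refine Finset.sup_le fun T hT => ?_
  rw [Finset.mem_filter, Finset.mem_powerset] at hT
  by_contra hc
  obtain ⟨T', hT', hcard⟩ := Finset.exists_subset_card_eq (s := T) (n := k) (by omega)
  exact hS T' (hT'.trans hT.1) (fun a ha b hb => hT.2.1 a (hT' ha) b (hT' hb)) hcard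

lemma hgt_pos {S : Finset (Fin n → ℤ)} {s : Fin n → Bool} {x : Fin n → ℤ} (hx : x ∈ S) :
    1 ≤ hgt S s x := by
  classical
  unfold hgt
  have h1 : ({x} : Finset (Fin n → ℤ)) ∈
      S.powerset.filter fun T => Ch s T ∧ x ∈ T ∧ ∀ y ∈ T, leS s y x := by
    rw [Finset.mem_filter, Finset.mem_powerset]
    refine ⟨by simpa using hx, ?_, by simp, ?_⟩
    · intro a ha b hb
      rw [Finset.mem_singleton] at ha hb
      subst ha
      subst hb
      exact Or.inl (leS_refl _ _)
    · intro y hy
      rw [Finset.mem_singleton] at hy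
      subst hy
      exact leS_refl _ _
  have h2 := Finset.le_sup (f := Finset.card) h1
  simpa using h2

lemma hgt_lt {S : Finset (Fin n → ℤ)} {s : Fin n → Bool} {x y : Fin n → ℤ} (hy : y ∈ S)
    (hxy : x ≠ y) (h : leS s x y) (hx : x ∈ S) : hgt S s x < hgt S s y := by
  classical
  have hne : (S.powerset.filter fun T => Ch s T ∧ x ∈ T ∧ ∀ y ∈ T, leS s y x).Nonempty := by
    refine ⟨{x}, ?_⟩
    rw [Finset.mem_filter, Finset.mem_powerset]
    refine ⟨by simpa using hx, ?_, by simp, ?_⟩
    · intro a ha b hb
      rw [Finset.mem_singleton] at ha hb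
      subst ha
      subst hb
      exact Or.inl (leS_refl _ _)
    · intro y hy
      rw [Finset.mem_singleton] at hy
      subst hy
      exact leS_refl _ _
  obtain ⟨T, hT, hTc⟩ := Finset.exists_mem_eq_sup _ hne Finset.card
  have h1 : hgt S s x = T.card := hTc
  rw [Finset.mem_filter, Finset.mem_powerset] at hT
  obtain ⟨hTS, hTch, hxT, hTle⟩ := hT
  have hyT : y ∉ T := by
    intro hyT
    have h2 := hTle y hyT
    exact hxy (ht_eq h (ht_mono h2))
  have h3 : insert y T ∈ S.powerset.filter fun T => Ch s T ∧ y ∈ T ∧ ∀ z ∈ T, leS s z y := by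
    rw [Finset.mem_filter, Finset.mem_powerset]
    have hle : ∀ z ∈ insert y T, leS s z y := by
      intro z hz
      rw [Finset.mem_insert] at hz
      rcases hz with rfl | hz
      · exact leS_refl _ _
      · exact leS_trans (hTle z hz) h
    refine ⟨Finset.insert_subset hy hTS, ?_, Finset.mem_insert_self _ _, hle⟩
    intro a ha b hb
    rw [Finset.mem_insert] at ha hb
    rcases ha with rfl | ha
    · exact Or.inr (hle b (by rw [Finset.mem_insert]; exact hb))
    · rcases hb with rfl | hb
      · exact Or.inl (hle a (by rw [Finset.mem_insert]; exact Or.inr ha))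
      · exact hTch a ha b hb
  have h4 := Finset.le_sup (f := Finset.card) h3
  rw [Finset.card_insert_of_notMem hyT] at h4
  rw [h1]
  exact h4

/-- The upper bound. -/
theorem upper {m k : ℕ} (hk : 2 ≤ k) (S : Finset (Fin (m + 1) → ℤ))
    (hS : ∀ s : Fin (m + 1) → Bool, ∀ T ⊆ S, Ch s T → T.card ≠ k) :
    S.card ≤ (k - 1) ^ 2 ^ m := by
  classical
  set F : (Fin (m + 1) → ℤ) → ((Fin m → Bool) → Fin (k - 1)) :=
    fun x s => ⟨min (hgt S (pat s) x - 1) (k - 2), by omega⟩ with hF
  have hcard : Fintype.card ((Fin m → Bool) → Fin (k - 1)) = (k - 1) ^ 2 ^ m := by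
    simp
  rw [← hcard, ← Finset.card_univ]
  refine Finset.card_le_card_of_injOn F (fun _ _ => Finset.mem_coe.2 (Finset.mem_univ _)) ?_
  -- two points which are comparable have different heights
  have key : ∀ x ∈ S, ∀ y ∈ S, x ≠ y → x 0 ≤ y 0 → F x ≠ F y := by
    intro x hx y hy hxy h0 hFF
    set s : Fin m → Bool := fun c => decide (x c.succ ≤ y c.succ) with hs
    have hle : leS (pat s) x y := by
      intro c
      refine Fin.cases ?_ (fun c => ?_) c
      · simpa [pat] using h0
      · by_cases hc : x c.succ ≤ y c.succ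
        · simp [pat, hs, hc]
        · simp only [pat, hs, Fin.cons_succ, hc, decide_false, Bool.false_eq_true, if_false]
          omega
    have h1 := hgt_lt hy hxy hle hx
    have h2 := congrArg (fun G : (Fin m → Bool) → Fin (k - 1) => (G s : ℕ)) hFF
    simp only [hF] at h2
    have h3 := hgt_le (x := x) (by omega) (hS (pat s))
    have h4 := hgt_le (x := y) (by omega) (hS (pat s))
    have h5 := hgt_pos (s := pat s) hx
    omega
  intro x hx y hy hxy
  by_contra hne
  rcases le_total (x 0) (y 0) with h | h
  · exact key x hx y hy hne h hxy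
  · exact key y hy x hx (Ne.symm hne) h hxy.symm

/-- The construction. -/
theorem lower {k : ℕ} (hk : 2 ≤ k) (m : ℕ) : ∃ S : Finset (Fin (m + 1) → ℤ),
    S.card = (k - 1) ^ 2 ^ m ∧ (∀ x ∈ S, ∀ y ∈ S, x 0 = y 0 → x = y) ∧
    ∀ s : Fin (m + 1) → Bool, ∀ T ⊆ S, Ch s T → T.card < k := by
  classical
  induction m with
  | zero =>
    refine ⟨(Finset.range (k - 1)).image fun i : ℕ => (fun _ : Fin 1 => (i : ℤ)), ?_, ?_, ?_⟩
    · rw [Finset.card_image_of_injective, Finset.card_range]
      · simp
      · intro a b hab
        have := congrFun hab 0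
        simpa using this
    · intro x hx y hy hxy
      funext i
      rw [Fin.fin_one_eq_zero i]
      exact hxy
    · intro s T hT _
      have h1 := Finset.card_le_card hT
      have h2 := Finset.card_image_le (s := Finset.range (k - 1))
        (f := fun i : ℕ => (fun _ : Fin 1 => (i : ℤ)))
      rw [Finset.card_range] at h2
      omega
  | succ m ih =>
    obtain ⟨A, hAc, hAinj, hAch⟩ := ih
    -- a bound for the coordinates
    obtain ⟨B, hB⟩ : ∃ B : ℕ, ∀ b ∈ A, ∀ c, (b c).natAbs ≤ B := by
      refine ⟨A.sup fun b => univ.sup fun c => (b c).natAbs, fun b hb c => ?_⟩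
      have h1 := Finset.le_sup (f := fun c => (b c).natAbs) (Finset.mem_univ c)
      have h2 := Finset.le_sup (f := fun b : Fin (m + 1) → ℤ => univ.sup fun c => (b c).natAbs) hb
      exact h1.trans h2
    set M : ℤ := 2 * B + 1 with hM
    have hM0 : 0 < M := by omega
    set P : (Fin (m + 1) → ℤ) × (Fin (m + 1) → ℤ) → (Fin (m + 2) → ℤ) :=
      fun z => Fin.snoc (α := fun _ => ℤ) (fun c => M * z.1 c + z.2 c) (M * z.1 0 - z.2 0) with hP
    have hP1 : ∀ z c, P z (Fin.castSucc c) = M * z.1 c + z.2 c := by
      intro z c
      simp only [hP, Fin.snoc_castSucc]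
    have hP2 : ∀ z, P z (Fin.last (m + 1)) = M * z.1 0 - z.2 0 := by
      intro z
      simp only [hP, Fin.snoc_last]
    have hcmp : ∀ a a' b b' : ℤ, b.natAbs ≤ B → b'.natAbs ≤ B → M * a + b ≤ M * a' + b' →
        a ≤ a' := by
      intro a a' b b' hb hb' h
      by_contra hc
      have h1 : a' + 1 ≤ a := by omega
      have h2 : M * (a' + 1) ≤ M * a := mul_le_mul_of_nonneg_left h1 hM0.le
      have h3 : M * (a' + 1) = M * a' + M := by ring
      omega
    have hinj0 : ∀ z ∈ A ×ˢ A, ∀ w ∈ A ×ˢ A, P z 0 = P w 0 → z = w := by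
      intro z hz w hw h
      rw [Finset.mem_product] at hz hw
      have h1 := hP1 z 0
      have h2 := hP1 w 0
      rw [Fin.castSucc_zero] at h1 h2
      rw [h1, h2] at h
      have h3 := hcmp _ _ _ _ (hB _ hz.2 0) (hB _ hw.2 0) h.le
      have h4 := hcmp _ _ _ _ (hB _ hw.2 0) (hB _ hz.2 0) h.ge
      have h5 : z.1 0 = w.1 0 := le_antisymm h3 h4
      rw [h5] at h
      have h6 : z.2 0 = w.2 0 := by omega
      exact Prod.ext (hAinj _ hz.1 _ hw.1 h5) (hAinj _ hz.2 _ hw.2 h6)
    refine ⟨(A ×ˢ A).image P, ?_, ?_, ?_⟩
    · rw [Finset.card_image_of_injOn, Finset.card_product, hAc]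
      · rw [pow_succ 2 m, pow_mul, pow_two]
      · intro z hz w hw h
        exact hinj0 z hz w hw (congrFun h 0)
    · intro x hx y hy h
      rw [Finset.mem_image] at hx hy
      obtain ⟨z, hz, rfl⟩ := hx
      obtain ⟨w, hw, rfl⟩ := hy
      rw [hinj0 z hz w hw h]
    · intro s T hT hch
      obtain ⟨Q, hQ, rfl⟩ := Finset.subset_image_iff.1 hT
      have hQA : ∀ z ∈ Q, z.1 ∈ A ∧ z.2 ∈ A := fun z hz => Finset.mem_product.1 (hQ hz)
      have hcardQ : (Q.image P).card = Q.card := by
        refine Finset.card_image_of_injOn ?_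
        intro z hz w hw h
        exact hinj0 z (hQ hz) w (hQ hw) (congrFun h 0)
      have hc : ∀ z ∈ Q, ∀ w ∈ Q, leS s (P z) (P w) ∨ leS s (P w) (P z) := by
        intro z hz w hw
        exact hch _ (Finset.mem_image_of_mem P hz) _ (Finset.mem_image_of_mem P hw)
      rw [hcardQ]
      set s' : Fin (m + 1) → Bool := fun c => s (Fin.castSucc c) with hs'
      -- the first components form a chain
      have h1 : ∀ z ∈ Q, ∀ w ∈ Q, leS s (P z) (P w) → leS s' z.1 w.1 := by
        intro z hz w hw h c
        have h2 := h (Fin.castSucc c)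
        rw [hP1, hP1] at h2
        simp only [hs']
        split_ifs at h2 ⊢
        · exact hcmp _ _ _ _ (hB _ (hQA z hz).2 c) (hB _ (hQA w hw).2 c) h2
        · exact hcmp _ _ _ _ (hB _ (hQA w hw).2 c) (hB _ (hQA z hz).2 c) h2
      -- comparison of the first and the last coordinate
      have h2 : ∀ z ∈ Q, ∀ w ∈ Q, leS s (P z) (P w) → s 0 = s (Fin.last (m + 1)) →
          z.1 = w.1 → z = w := by
        intro z hz w hw h hs he
        have h3 := h 0
        have h4 := h (Fin.last (m + 1))
        rw [hP2, hP2, ← hs] at h4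
        have h5 := hP1 z 0
        have h6 := hP1 w 0
        rw [Fin.castSucc_zero] at h5 h6
        rw [h5, h6] at h3
        rw [he] at h3 h4
        have h7 : z.2 0 = w.2 0 := by
          split_ifs at h3 h4 <;> omega
        exact Prod.ext he (hAinj _ (hQA z hz).2 _ (hQA w hw).2 h7)
      have h3 : ∀ z ∈ Q, ∀ w ∈ Q, leS s (P z) (P w) → s 0 ≠ s (Fin.last (m + 1)) →
          z.1 = w.1 := by
        intro z hz w hw h hs
        have h3 := h 0
        have h4 := h (Fin.last (m + 1))
        have h5 := hP1 z 0
        have h6 := hP1 w 0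
        rw [Fin.castSucc_zero] at h5 h6
        rw [h5, h6] at h3
        rw [hP2, hP2] at h4
        have e1 := hB _ (hQA z hz).2 0
        have e2 := hB _ (hQA w hw).2 0
        have h8 : z.1 0 = w.1 0 := by
          have hneg : ∀ b : ℤ, b.natAbs ≤ B → (-b).natAbs ≤ B := by
            intro b hb; rwa [Int.natAbs_neg]
          rcases Bool.eq_false_or_eq_true (s 0) with hs0 | hs0
          · have hs1 : s (Fin.last (m + 1)) = false := by
              rcases Bool.eq_false_or_eq_true (s (Fin.last (m + 1))) with h | h
              · exact absurd (hs0.trans h.symm) hs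
              · exact h
            rw [hs0] at h3
            rw [hs1] at h4
            simp only [if_true, Bool.false_eq_true, if_false] at h3 h4
            apply le_antisymm
            · exact hcmp _ _ _ _ e1 e2 h3
            · exact hcmp _ _ _ _ (hneg _ e2) (hneg _ e1) (by linarith)
          · have hs1 : s (Fin.last (m + 1)) = true := by
              rcases Bool.eq_false_or_eq_true (s (Fin.last (m + 1))) with h | h
              · exact h
              · exact absurd (hs0.trans h.symm) hs
            rw [hs0] at h3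
            rw [hs1] at h4
            simp only [if_true, Bool.false_eq_true, if_false] at h3 h4
            apply le_antisymm
            · exact hcmp _ _ _ _ (hneg _ e1) (hneg _ e2) (by linarith)
            · exact hcmp _ _ _ _ e2 e1 h3
        exact hAinj _ (hQA z hz).1 _ (hQA w hw).1 h8
      by_cases hs : s 0 = s (Fin.last (m + 1))
      · -- the first components are distinct
        have h4 : (Q.image Prod.fst).card = Q.card := by
          refine Finset.card_image_of_injOn ?_
          intro z hz w hw h
          rcases hc z hz w hw with h5 | h5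
          · exact h2 z hz w hw h5 hs h
          · exact (h2 w hw z hz h5 hs h.symm).symm
        rw [← h4]
        refine hAch s' _ ?_ ?_
        · intro x hx
          rw [Finset.mem_image] at hx
          obtain ⟨z, hz, rfl⟩ := hx
          exact (hQA z hz).1
        · intro x hx y hy
          rw [Finset.mem_image] at hx hy
          obtain ⟨z, hz, rfl⟩ := hx
          obtain ⟨w, hw, rfl⟩ := hy
          rcases hc z hz w hw with h5 | h5
          · exact Or.inl (h1 z hz w hw h5)
          · exact Or.inr (h1 w hw z hz h5)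
      · -- the first components are all equal
        have h4 : ∀ z ∈ Q, ∀ w ∈ Q, z.1 = w.1 := by
          intro z hz w hw
          rcases hc z hz w hw with h5 | h5
          · exact h3 z hz w hw h5 hs
          · exact (h3 w hw z hz h5 hs).symm
        have h5 : (Q.image Prod.snd).card = Q.card := by
          refine Finset.card_image_of_injOn ?_
          intro z hz w hw h
          exact Prod.ext (h4 z hz w hw) h
        rw [← h5]
        refine hAch s' _ ?_ ?_
        · intro x hx
          rw [Finset.mem_image] at hx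
          obtain ⟨z, hz, rfl⟩ := hx
          exact (hQA z hz).2
        · intro x hx y hy
          rw [Finset.mem_image] at hx hy
          obtain ⟨z, hz, rfl⟩ := hx
          obtain ⟨w, hw, rfl⟩ := hy
          have h6 : ∀ z ∈ Q, ∀ w ∈ Q, leS s (P z) (P w) → leS s' z.2 w.2 := by
            intro z hz w hw h c
            have h7 := h (Fin.castSucc c)
            rw [hP1, hP1, h4 z hz w hw] at h7
            simp only [hs']
            split_ifs at h7 ⊢ <;> omega
          rcases hc z hz w hw with h7 | h7
          · exact Or.inl (h6 z hz w hw h7)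
          · exact Or.inr (h6 w hw z hz h7)

end Pool.Agent.Helper19K9.GridGP
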